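import Mathlib
import Pool.Agent.Lib.MP_43bc59_co.Sharp
import Pool.Agent.Lib.MP_43bc59_co.F_All

set_option autoImplicit false

namespace Pool.Agent.Results.MP_43bc59_co.SharpConstant

theorem result (n : ℕ) :
    (∀ (r : Fin n → Fin n → Prop), (∀ a, r a a) → (∀ a b, r a b → r b a → a = b) →
      (∀ a b d, r a b → r b d → r a d) →
      ∀ (E : Finset (Equiv.Perm (Fin n))),
      (∀ σ : Equiv.Perm (Fin n), σ ∈ E ↔ ∀ i j : Fin n, r (σ i) (σ j) → i ≤ j) →
      ∀ (A : Finset (Equiv.Perm (Fin n))), A ⊆ E →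
      4 * ((A.card : ℝ) * ((E \ A).card : ℝ)) ≤ (n : ℝ) * (E.card : ℝ) *
        (((A ×ˢ (E \ A)).filter
          (fun p : Equiv.Perm (Fin n) × Equiv.Perm (Fin n) =>
            ∃ i j : Fin n, j.val = i.val + 1 ∧ p.2 = p.1 * Equiv.swap i j)).card : ℝ)) ∧
    (2 ≤ n → ∃ A : Finset (Equiv.Perm (Fin n)),
      2 * A.card = (Finset.univ : Finset (Equiv.Perm (Fin n))).card ∧
      n * ((A ×ˢ (Finset.univ \ A)).filter
          (fun p : Equiv.Perm (Fin n) × Equiv.Perm (Fin n) =>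
            ∃ i j : Fin n, j.val = i.val + 1 ∧ p.2 = p.1 * Equiv.swap i j)).card = 2 * A.card) := by
  refine ⟨fun r _ _ _ E hE A hA => Pool.Agent.Lib.MP_43bc59_co.sharp_of
    Pool.Agent.Lib.MP_43bc59_co.st_F E hE A hA, fun hn => ?_⟩
  obtain ⟨A, h1, h2⟩ := Pool.Agent.Lib.MP_43bc59_co.extremal (n := n) (x := ⟨0, by omega⟩) (y := ⟨1, by omega⟩) (by simp)
  refine ⟨A, h1, le_antisymm (h1 ▸ h2) ?_⟩
  have t := Pool.Agent.Lib.MP_43bc59_co.sharp_of (r := fun a b => a = b)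
    Pool.Agent.Lib.MP_43bc59_co.st_F Finset.univ
    (fun σ => ⟨fun _ i j h => (σ.injective h).le, fun _ => Finset.mem_univ _⟩) A (Finset.subset_univ A)
  have hp : 0 < (Finset.univ : Finset (Equiv.Perm (Fin n))).card := Finset.card_pos.2 ⟨1, Finset.mem_univ _⟩
  have hc : (Finset.univ \ A).card = A.card := by
    rw [Finset.card_sdiff_of_subset (Finset.subset_univ A)]; omega
  rw [hc, ← h1] at t
  have hA : 0 < A.card := by omega
  have t2 : 4 * (A.card * A.card) ≤ n * (2 * A.card) * ((A ×ˢ (Finset.univ \ A)).filter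
          (fun p : Equiv.Perm (Fin n) × Equiv.Perm (Fin n) =>
            ∃ i j : Fin n, j.val = i.val + 1 ∧ p.2 = p.1 * Equiv.swap i j)).card := by
    exact_mod_cast t
  apply Nat.le_of_mul_le_mul_left _ (show 0 < 2 * A.card by omega)
  calc 2 * A.card * (2 * A.card) = 4 * (A.card * A.card) := by ring
    _ ≤ _ := t2
    _ = _ := by ring

end Pool.Agent.Results.MP_43bc59_co.SharpConstant
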